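import Mathlib

/-!
Operator estimates for x ^ 2 * sin (1 / x) in a unital C-star algebra.
-/

set_option autoImplicit false

open NormedSpace

namespace Pool.Agent.MP_24fbf1_an

variable {A : Type*} [CStarAlgebra A]

lemma norm_exp_skew_le (S : A) (hS : IsSelfAdjoint S) (t : ℝ) (X : A) :
    ‖exp (t • (Complex.I • S)) * X‖ = ‖X‖ ∧ ‖X * exp (t • (Complex.I • S))‖ = ‖X‖ := by
  have h1 : IsSelfAdjoint (t • S) := (IsSelfAdjoint.all t).smul hS
  let u : unitary A := selfAdjoint.expUnitary ⟨t • S, h1⟩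
  have hu : (u : A) = exp (t • (Complex.I • S)) := by
    simp only [u, selfAdjoint.expUnitary_coe]
    rw [smul_comm]
  rw [← hu]
  exact ⟨CStarRing.norm_coe_unitary_mul u X, CStarRing.norm_mul_coe_unitary X u⟩

/-- Duhamel type estimate. -/
lemma duhamel (S T P Q : A) (hS : IsSelfAdjoint S) (hT : IsSelfAdjoint T)
    (hSP : S * P = 1) (hQT : Q * T = 1) :
    ‖exp (Complex.I • S) * (P * Q) - (P * Q) * exp (Complex.I • T)‖ ≤ ‖P - Q‖ := by
  set u : A := Complex.I • S with hu
  set v : A := Complex.I • T with hv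
  let F : ℝ → A := fun t => exp (t • u) * (P * Q) * exp ((1 - t) • v)
  let F' : ℝ → A := fun t => exp (t • u) * (Complex.I • (Q - P)) * exp ((1 - t) • v)
  have hF : ∀ t : ℝ, HasDerivAt F (F' t) t := by
    intro t
    have h1 : HasDerivAt (fun t : ℝ => exp (t • u)) (exp (t • u) * u) t :=
      hasDerivAt_exp_smul_const u t
    have h2 : HasDerivAt (fun t : ℝ => exp (t • v)) (v * exp ((1 - t) • v)) (1 - t) :=
      hasDerivAt_exp_smul_const' v (1 - t)
    have h3 : HasDerivAt (fun t : ℝ => 1 - t) (-1 : ℝ) t := by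
      simpa using (hasDerivAt_id t).const_sub 1
    have h4 := h2.scomp t h3
    have h5 := (h1.mul_const (P * Q)).mul h4
    have e1 : u * (P * Q) = Complex.I • Q := by
      rw [hu, smul_mul_assoc, ← mul_assoc, hSP, one_mul]
    have e2 : (P * Q) * v = Complex.I • P := by
      rw [hv, mul_smul_comm, mul_assoc, hQT, mul_one]
    refine h5.congr_deriv ?_
    simp only [F', Function.comp, smul_sub, neg_smul, one_smul, mul_neg]
    rw [mul_assoc (exp (t • u)) u, e1, mul_assoc (exp (t • u)) (P * Q), ← mul_assoc (P * Q) v, e2,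
      mul_sub, sub_mul, mul_assoc (exp (t • u)) (Complex.I • P)]
    exact (sub_eq_add_neg _ _).symm
  have hb : ∀ t ∈ Set.Ico (0:ℝ) 1, ‖F' t‖ ≤ ‖P - Q‖ := by
    intro t _
    simp only [F']
    rw [(norm_exp_skew_le T hT (1 - t) _).2, (norm_exp_skew_le S hS t _).1, norm_smul,
      Complex.norm_I, one_mul, norm_sub_rev]
  have := norm_image_sub_le_of_norm_deriv_le_segment_01' (f := F) (f' := F') (C := ‖P - Q‖)
    (fun x _ => (hF x).hasDerivWithinAt) hb
  simpa [F] using this

lemma sq_exp_est (S T P Q : A) (hS : IsSelfAdjoint S) (hT : IsSelfAdjoint T)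
    (hSP : S * P = 1) (hQT : Q * T = 1) :
    ‖exp (Complex.I • S) * (P * P) - (Q * Q) * exp (Complex.I • T)‖
      ≤ (‖P‖ + 1 + ‖Q‖) * ‖P - Q‖ := by
  have e : exp (Complex.I • S) * (P * P) - (Q * Q) * exp (Complex.I • T)
      = exp (Complex.I • S) * (P * (P - Q))
        + (exp (Complex.I • S) * (P * Q) - (P * Q) * exp (Complex.I • T))
        + ((P - Q) * Q) * exp (Complex.I • T) := by
    noncomm_ring
  have h1 := (norm_exp_skew_le S hS 1 (P * (P - Q))).1
  have h2 := (norm_exp_skew_le T hT 1 ((P - Q) * Q)).2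
  rw [one_smul] at h1 h2
  rw [e]
  refine (norm_add₃_le).trans ?_
  rw [h1, h2]
  have h3 := duhamel S T P Q hS hT hSP hQT
  have h4 := norm_mul_le P (P - Q)
  have h5 := norm_mul_le (P - Q) Q
  nlinarith

lemma cfc_sin_eq (S : A) (hS : IsSelfAdjoint S) :
    cfc Real.sin S = (Complex.I / 2) • (exp (Complex.I • (-S)) - exp (Complex.I • S)) := by
  have hn : IsStarNormal S := hS.isStarNormal
  rw [cfc_real_eq_complex Real.sin hS]
  have e1 : exp (Complex.I • S) = cfc (fun z : ℂ => Complex.exp (Complex.I * z)) S := by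
    rw [← CFC.complex_exp_eq_normedSpace_exp (p := IsStarNormal), ← cfc_comp_smul ..]
    rfl
  have e2 : exp (Complex.I • (-S)) = cfc (fun z : ℂ => Complex.exp (-Complex.I * z)) S := by
    rw [smul_neg, ← neg_smul, ← CFC.complex_exp_eq_normedSpace_exp (p := IsStarNormal),
      ← cfc_comp_smul ..]
    rfl
  rw [e1, e2, ← cfc_sub .., ← cfc_smul ..]
  apply cfc_congr
  intro z hz
  have hz' : z = (z.re : ℂ) := (hS.mem_spectrum_eq_re hz)
  simp only [smul_eq_mul]
  rw [Complex.ofReal_sin, ← hz', Complex.sin]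
  ring_nf

end Pool.Agent.MP_24fbf1_an
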