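import Pool.Agent.MP_24fbf1_an.Duhamel

/-!
The function x + 2 x ^ 2 + x ^ 2 * sin (1 / x) is operator Lipschitz on the unit interval.
-/

set_option autoImplicit false

open NormedSpace Filter Topology

namespace Pool.Agent.MP_24fbf1_an

/-- The oscillating part. -/
noncomputable def osc (x : ℝ) : ℝ := x * x * Real.sin x⁻¹

lemma osc_continuous : Continuous osc := by
  rw [continuous_iff_continuousAt]
  intro x
  by_cases hx : x = 0
  · subst hx
    have h0 : osc 0 = 0 := by simp [osc]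
    rw [ContinuousAt, h0]
    have hb : Tendsto (fun x : ℝ => x * x) (𝓝 0) (𝓝 0) := by
      have : Continuous (fun x : ℝ => x * x) := by fun_prop
      simpa using this.tendsto 0
    refine squeeze_zero_norm (fun x => ?_) hb
    simp only [osc, norm_mul, Real.norm_eq_abs]
    have h1 := Real.abs_sin_le_one x⁻¹
    have h2 : |x| * |x| = x * x := abs_mul_abs_self x
    have h3 : 0 ≤ x * x := mul_self_nonneg x
    rw [h2]
    nlinarith
  · unfold osc
    fun_prop (disch := exact hx)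

variable {A : Type*} [CStarAlgebra A]

lemma norm_le_of_spec (a : A) (hsp : spectrum ℝ a ⊆ Set.Icc 0 1)
    (f : ℝ → ℝ) (c : ℝ) (hc : 0 ≤ c) (hf : ∀ x ∈ Set.Icc (0:ℝ) 1, |f x| ≤ c) :
    ‖cfc f a‖ ≤ c :=
  norm_cfc_le hc (fun x hx => hf x (hsp hx))

lemma osc_shift_eq (a : A) (ha : IsSelfAdjoint a) (hsp : spectrum ℝ a ⊆ Set.Icc 0 1)
    (ε : ℝ) (hε : 0 < ε) :
    ∃ S P : A, IsSelfAdjoint S ∧ S * P = 1 ∧ P * S = 1 ∧ P = a + algebraMap ℝ A ε ∧
      ‖P‖ ≤ 1 + ε ∧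
      cfc (fun x => osc (x + ε)) a = cfc Real.sin S * (P * P) ∧
      cfc (fun x => osc (x + ε)) a = (P * P) * cfc Real.sin S := by
  have hne : ∀ x ∈ spectrum ℝ a, x + ε ≠ 0 := fun x hx => by
    have := (hsp hx).1
    positivity
  have hc1 : ContinuousOn (fun x : ℝ => (x + ε)⁻¹) (spectrum ℝ a) := by
    fun_prop (disch := assumption)
  have hc2 : ContinuousOn (fun x : ℝ => x + ε) (spectrum ℝ a) := by fun_prop
  have hc3 : ContinuousOn (fun x : ℝ => Real.sin (x + ε)⁻¹) (spectrum ℝ a) :=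
    Real.continuous_sin.comp_continuousOn hc1
  have hc4 : ContinuousOn (fun x : ℝ => (x + ε) * (x + ε)) (spectrum ℝ a) := hc2.mul hc2
  have hsin : cfc Real.sin (cfc (fun x : ℝ => (x + ε)⁻¹) a)
      = cfc (fun x : ℝ => Real.sin (x + ε)⁻¹) a := by
    rw [← cfc_comp' Real.sin (fun x : ℝ => (x + ε)⁻¹) a Real.continuous_sin.continuousOn hc1]
  refine ⟨cfc (fun x : ℝ => (x + ε)⁻¹) a, cfc (fun x : ℝ => x + ε) a, cfc_predicate _ _, ?_, ?_,
    ?_, ?_, ?_, ?_⟩
  · rw [← cfc_mul _ _ a hc1 hc2, ← cfc_const_one ℝ a]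
    exact cfc_congr fun x hx => inv_mul_cancel₀ (hne x hx)
  · rw [← cfc_mul _ _ a hc2 hc1, ← cfc_const_one ℝ a]
    exact cfc_congr fun x hx => mul_inv_cancel₀ (hne x hx)
  · rw [cfc_add_const ε (fun x : ℝ => x) a continuousOn_id ha, cfc_id' ℝ a]
  · refine norm_le_of_spec a hsp _ _ (by positivity) fun x hx => ?_
    rw [abs_le]
    constructor <;> linarith [hx.1, hx.2]
  · rw [hsin, ← cfc_mul _ _ a hc2 hc2, ← cfc_mul _ _ a hc3 hc4]
    exact cfc_congr fun x _ => by simp [osc, mul_comm]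
  · rw [hsin, ← cfc_mul _ _ a hc2 hc2, ← cfc_mul _ _ a hc4 hc3]
    exact cfc_congr fun x _ => by simp [osc]

lemma osc_shift_est (a b : A) (ha : IsSelfAdjoint a) (hb : IsSelfAdjoint b)
    (hsa : spectrum ℝ a ⊆ Set.Icc 0 1) (hsb : spectrum ℝ b ⊆ Set.Icc 0 1)
    (ε : ℝ) (hε : 0 < ε) (hε1 : ε ≤ 1) :
    ‖cfc (fun x => osc (x + ε)) a - cfc (fun x => osc (x + ε)) b‖ ≤ 5 * ‖a - b‖ := by
  obtain ⟨S, P, hS, hSP, -, hP, hPn, e1, -⟩ := osc_shift_eq a ha hsa ε hε
  obtain ⟨T, Q, hT, -, hQT, hQ, hQn, -, e2⟩ := osc_shift_eq b hb hsb ε hε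
  have hPQ : P - Q = a - b := by rw [hP, hQ]; abel
  have h1 := sq_exp_est S T P Q hS hT hSP hQT
  have h2 := sq_exp_est (-S) (-T) (-P) (-Q) hS.neg hT.neg (by simpa using hSP) (by simpa using hQT)
  have h3 : -P - -Q = -(a - b) := by rw [← hPQ]; abel
  rw [neg_mul_neg, neg_mul_neg, norm_neg, norm_neg, h3, norm_neg] at h2
  rw [hPQ] at h1
  rw [e1, e2, cfc_sin_eq S hS, cfc_sin_eq T hT]
  have e : (Complex.I / 2) • (exp (Complex.I • (-S)) - exp (Complex.I • S)) * (P * P)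
      - (Q * Q) * (Complex.I / 2) • (exp (Complex.I • (-T)) - exp (Complex.I • T))
      = (Complex.I / 2) • ((exp (Complex.I • (-S)) * (P * P) - (Q * Q) * exp (Complex.I • (-T)))
        - (exp (Complex.I • S) * (P * P) - (Q * Q) * exp (Complex.I • T))) := by
    rw [smul_mul_assoc, mul_smul_comm, ← smul_sub]
    congr 1
    noncomm_ring
  rw [e, norm_smul]
  have hI : ‖Complex.I / 2‖ = 1 / 2 := by simp
  rw [hI]
  have h4 := norm_sub_le (exp (Complex.I • (-S)) * (P * P) - (Q * Q) * exp (Complex.I • (-T)))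
    (exp (Complex.I • S) * (P * P) - (Q * Q) * exp (Complex.I • T))
  have h5 : (‖P‖ + 1 + ‖Q‖) * ‖a - b‖ ≤ 5 * ‖a - b‖ := by
    gcongr
    linarith
  linarith

lemma tendsto_osc_shift (a : A) (hsa : spectrum ℝ a ⊆ Set.Icc 0 1) :
    Tendsto (fun ε : ℝ => cfc (fun x => osc (x + ε)) a) (𝓝 0) (𝓝 (cfc osc a)) := by
  apply tendsto_cfc_fun
  · refine TendstoUniformlyOn.mono ?_ hsa
    have hc : ContinuousOn (fun p : ℝ × ℝ => osc (p.2 + p.1)) (Set.univ ×ˢ Set.Icc (0:ℝ) 1) :=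
      (osc_continuous.comp (continuous_snd.add continuous_fst)).continuousOn
    have hu : UniformContinuousOn osc (Set.Icc (-1) 2) :=
      isCompact_Icc.uniformContinuousOn_of_continuous osc_continuous.continuousOn
    rw [Metric.tendstoUniformlyOn_iff]
    intro η hη
    obtain ⟨δ, hδ, hh⟩ := Metric.uniformContinuousOn_iff.1 hu η hη
    have : ∀ᶠ ε in 𝓝 (0:ℝ), |ε| < min δ 1 := by
      have := Metric.ball_mem_nhds (0:ℝ) (lt_min hδ one_pos)
      filter_upwards [this] with ε hε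
      simpa using hε
    filter_upwards [this] with ε hε x hx
    have h1 : |ε| < δ := hε.trans_le (min_le_left _ _)
    have h2 : |ε| < 1 := hε.trans_le (min_le_right _ _)
    have h3 := abs_lt.1 h2
    apply hh x ⟨by linarith [hx.1], by linarith [hx.2]⟩ (x + ε)
      ⟨by linarith [hx.1], by linarith [hx.2]⟩
    simpa [Real.dist_eq] using h1
  · exact Eventually.of_forall fun ε =>
      (osc_continuous.comp (continuous_id.add continuous_const)).continuousOn

lemma osc_est (a b : A) (ha : IsSelfAdjoint a) (hb : IsSelfAdjoint b)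
    (hsa : spectrum ℝ a ⊆ Set.Icc 0 1) (hsb : spectrum ℝ b ⊆ Set.Icc 0 1) :
    ‖cfc osc a - cfc osc b‖ ≤ 5 * ‖a - b‖ := by
  have h := ((tendsto_osc_shift a hsa).sub (tendsto_osc_shift b hsb)).norm
  have h' := h.mono_left (nhdsWithin_le_nhds (s := Set.Ioi (0:ℝ)))
  refine le_of_tendsto h' ?_
  filter_upwards [Ioc_mem_nhdsGT (zero_lt_one (α := ℝ))] with ε hε
  exact osc_shift_est a b ha hb hsa hsb ε hε.1 hε.2

/-- The counterexample. -/
noncomputable def cex (x : ℝ) : ℝ := x + 2 * (x * x) + osc x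

lemma cex_continuous : Continuous cex := by
  unfold cex
  have := osc_continuous
  fun_prop

lemma cex_est (a b : A) (ha : IsSelfAdjoint a) (hb : IsSelfAdjoint b)
    (hsa : spectrum ℝ a ⊆ Set.Icc 0 1) (hsb : spectrum ℝ b ⊆ Set.Icc 0 1) :
    ‖cfc cex a - cfc cex b‖ ≤ 10 * ‖a - b‖ := by
  have key : ∀ c : A, IsSelfAdjoint c → cfc cex c = c + (2:ℝ) • (c * c) + cfc osc c := by
    intro c hc
    have h0 : ContinuousOn (fun x : ℝ => x) (spectrum ℝ c) := continuousOn_id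
    have h1 : ContinuousOn (fun x : ℝ => x * x) (spectrum ℝ c) := h0.mul h0
    have h2 : ContinuousOn (fun x : ℝ => 2 * (x * x)) (spectrum ℝ c) := continuousOn_const.mul h1
    have h3 : ContinuousOn (fun x : ℝ => x + 2 * (x * x)) (spectrum ℝ c) := h0.add h2
    have e0 : cex = fun x => (x + 2 * (x * x)) + osc x := rfl
    rw [e0, cfc_add c _ _ h3 osc_continuous.continuousOn, cfc_add c _ _ h0 h2,
      cfc_const_mul 2 _ c h1, cfc_mul _ _ c h0 h0, cfc_id' ℝ c]
  have hn : ∀ c : A, IsSelfAdjoint c → spectrum ℝ c ⊆ Set.Icc 0 1 → ‖c‖ ≤ 1 := by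
    intro c hc hs
    have := norm_le_of_spec c hs (fun x => x) 1 zero_le_one fun x hx => by
      rw [abs_le]
      constructor <;> linarith [hx.1, hx.2]
    rwa [cfc_id' ℝ c] at this
  rw [key a ha, key b hb]
  have e : a + (2:ℝ) • (a * a) + cfc osc a - (b + (2:ℝ) • (b * b) + cfc osc b)
      = (a - b) + (2:ℝ) • (a * (a - b) + (a - b) * b) + (cfc osc a - cfc osc b) := by
    have : a * (a - b) + (a - b) * b = a * a - b * b := by noncomm_ring
    rw [this, smul_sub]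
    abel
  rw [e]
  refine norm_add₃_le.trans ?_
  have h1 := osc_est a b ha hb hsa hsb
  have h2 : ‖a * (a - b) + (a - b) * b‖ ≤ 2 * ‖a - b‖ := by
    refine (norm_add_le _ _).trans ?_
    have h4 := norm_mul_le a (a - b)
    have h5 := norm_mul_le (a - b) b
    have h6 := hn a ha hsa
    have h7 := hn b hb hsb
    have h8 := norm_nonneg (a - b)
    nlinarith
  rw [norm_smul]
  simp only [Real.norm_ofNat]
  linarith

lemma cex_hasDerivAt (x : ℝ) (hx : x ≠ 0) :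
    HasDerivAt cex (1 + 4 * x + (2 * x * Real.sin x⁻¹ - Real.cos x⁻¹)) x := by
  have h1 : HasDerivAt (fun y : ℝ => y * y) (2 * x) x := by
    refine HasDerivAt.congr_deriv ((hasDerivAt_id' x).mul (hasDerivAt_id' x)) ?_
    ring
  have h2 : HasDerivAt (fun y : ℝ => Real.sin y⁻¹) (Real.cos x⁻¹ * (-(x ^ 2)⁻¹)) x :=
    (hasDerivAt_inv hx).sin
  have h3 := ((hasDerivAt_id x).add (h1.const_mul 2)).add (h1.mul h2)
  refine HasDerivAt.congr_deriv h3 ?_
  field_simp
  ring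

lemma cex_hasDerivAt_zero : HasDerivAt cex 1 0 := by
  have h1 : HasDerivAt (fun y : ℝ => y * y) 0 0 := by
    refine HasDerivAt.congr_deriv ((hasDerivAt_id' (0:ℝ)).mul (hasDerivAt_id' (0:ℝ))) ?_
    simp
  have h2 : HasDerivAt osc 0 0 := by
    rw [hasDerivAt_iff_isLittleO_nhds_zero]
    simp only [zero_add, smul_zero, sub_zero]
    have h0 : osc 0 = 0 := by simp [osc]
    rw [h0]
    simp only [sub_zero]
    have h3 : (fun y : ℝ => y * y) =o[𝓝 0] fun y : ℝ => y := by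
      have := (hasDerivAt_iff_isLittleO_nhds_zero).1 h1
      simpa using this
    refine Asymptotics.IsBigO.trans_isLittleO ?_ h3
    refine Asymptotics.IsBigO.of_bound 1 (Eventually.of_forall fun y => ?_)
    simp only [osc, norm_mul, Real.norm_eq_abs, one_mul]
    have := Real.abs_sin_le_one y⁻¹
    have h4 : 0 ≤ |y| * |y| := by positivity
    nlinarith
  have h3 := ((hasDerivAt_id (0:ℝ)).add (h1.const_mul 2)).add h2
  refine HasDerivAt.congr_deriv h3 ?_
  simp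

lemma cex_deriv_ne :
    ∀ x ∈ Set.Icc (0:ℝ) 1, ∃ d : ℝ, d ≠ 0 ∧ HasDerivWithinAt cex d (Set.Icc 0 1) x := by
  intro x hx
  rcases hx.1.eq_or_lt with h | h
  · subst h
    exact ⟨1, one_ne_zero, cex_hasDerivAt_zero.hasDerivWithinAt⟩
  · refine ⟨_, ?_, (cex_hasDerivAt x h.ne').hasDerivWithinAt⟩
    have h1 := Real.neg_one_le_sin x⁻¹
    have h2 := Real.cos_le_one x⁻¹
    have h3 : 0 < 1 + 4 * x + (2 * x * Real.sin x⁻¹ - Real.cos x⁻¹) := by nlinarith
    exact h3.ne'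

lemma cex_mem (x : ℝ) (h0 : 0 ≤ x) (h1 : x ≤ 1 / 2) : cex x ∈ Set.uIcc (cex 0) (cex 1) := by
  have e0 : cex 0 = 0 := by simp [cex, osc]
  have e1 : 2 ≤ cex 1 := by
    have := Real.neg_one_le_sin 1
    simp only [cex, osc, inv_one]
    linarith
  rw [e0, Set.uIcc_of_le (by linarith)]
  have h2 := Real.neg_one_le_sin x⁻¹
  have h3 := Real.sin_le_one x⁻¹
  have h4 : 0 ≤ x * x := mul_self_nonneg x
  have h5 : x * x ≤ 1 / 4 := by nlinarith
  constructor
  · simp only [cex, osc]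
    nlinarith
  · refine le_trans ?_ e1
    simp only [cex, osc]
    nlinarith

/-- A left inverse of the counterexample is not even Lipschitz. -/
lemma not_lip (g : ℝ → ℝ) (hg : ∀ x ∈ Set.Icc (0:ℝ) 1, g (cex x) = x) (C : ℝ)
    (hC : ∀ u ∈ Set.uIcc (cex 0) (cex 1), ∀ v ∈ Set.uIcc (cex 0) (cex 1),
      ‖g u - g v‖ ≤ C * ‖u - v‖) : False := by
  have key : ∀ x : ℝ, 0 < x → x < 1 / 2 → ∀ d : ℝ, HasDerivAt cex d x → 1 ≤ C * |d| := by
    intro x h0 h1 d hd
    have h2 := hasDerivAt_iff_tendsto_slope.1 hd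
    have h3 : Tendsto (fun y => C * |slope cex x y|) (𝓝[≠] x) (𝓝 (C * |d|)) :=
      (h2.abs).const_mul C
    refine ge_of_tendsto h3 ?_
    have h4 : ∀ᶠ y in 𝓝[≠] x, y ∈ Set.Ioo (0:ℝ) (1 / 2) :=
      nhdsWithin_le_nhds (Ioo_mem_nhds h0 h1)
    filter_upwards [h4, self_mem_nhdsWithin] with y hy hyx
    have h5 := hC (cex y) (cex_mem y hy.1.le hy.2.le) (cex x) (cex_mem x h0.le h1.le)
    rw [hg y ⟨hy.1.le, by linarith [hy.2]⟩, hg x ⟨h0.le, by linarith⟩] at h5
    have h6 : 0 < |y - x| := abs_pos.2 (sub_ne_zero.2 hyx)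
    rw [slope_def_field, abs_div, ← mul_div_assoc, le_div_iff₀ h6, one_mul]
    exact h5
  obtain ⟨n, hn⟩ := exists_nat_gt (max 1 |C|)
  have hn1 : (1:ℝ) < n := (le_max_left _ _).trans_lt hn
  have hn2 : |C| < n := (le_max_right _ _).trans_lt hn
  have hpi := Real.pi_gt_three
  have hpos : (0:ℝ) < n * (2 * Real.pi) := by positivity
  have hx0 : (0:ℝ) < (n * (2 * Real.pi))⁻¹ := inv_pos.2 hpos
  have hx1 : ((n:ℝ) * (2 * Real.pi))⁻¹ < 1 / 2 := by
    rw [inv_lt_comm₀ hpos (by norm_num)]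
    nlinarith
  have h := key _ hx0 hx1 _ (cex_hasDerivAt _ hx0.ne')
  rw [inv_inv, Real.cos_nat_mul_two_pi] at h
  have hs : Real.sin (n * (2 * Real.pi)) = 0 := by
    have := Real.sin_nat_mul_pi (2 * n)
    rw [← this]
    congr 1
    push_cast
    ring
  rw [hs] at h
  have e : 1 + 4 * ((n:ℝ) * (2 * Real.pi))⁻¹ + (2 * ((n:ℝ) * (2 * Real.pi))⁻¹ * 0 - 1)
      = 4 * ((n:ℝ) * (2 * Real.pi))⁻¹ := by ring
  rw [e, abs_of_pos (by positivity), ← mul_assoc, ← div_eq_mul_inv, le_div_iff₀ hpos] at h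
  have := le_abs_self C
  nlinarith

end Pool.Agent.MP_24fbf1_an
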